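import Mathlib
import Pool.Agent.Lib.MP_5dc4fa_al.Alg.Final

/-!
Algebras all of whose elements are algebraic over the ring of coefficients (with leading
coefficients that are not zero divisors on the algebra): under (P) the nilpotent elements form an
ideal which contains all commutators.
-/

namespace Pool.Agent.Results.MP_5dc4fa_al.AlgebraicAlgebras

open Pool.Agent.Lib.MP_5dc4fa_al

theorem result (C : Type*) [CommRing C] (R : Type*) [NonUnitalRing R] [Module C R]
    [IsScalarTower C R R] [SMulCommClass C R R]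
    (halg : ∀ x : R, ∃ (n : ℕ) (c : Fin (n + 1) → C), (∀ r : R, c (Fin.last n) • r = 0 → r = 0) ∧
      ∑ i, c i • (fun z : R => z * x)^[(i : ℕ)] x = 0)
    (hP : ∀ x y : R, ∃ n : ℕ, 1 ≤ n ∧
      (fun z : R => z * (x * y))^[n] (x * y) =
        (fun z : R => z * x)^[n] x * (fun z : R => z * y)^[n] y) :
    ∃ N : TwoSidedIdeal R, (∀ x, x ∈ N ↔ ∃ m : ℕ, (fun z : R => z * x)^[m] x = 0) ∧
      ∀ x y, x * y - y * x ∈ N :=
  Alg.algebraic_main hP halg

end Pool.Agent.Results.MP_5dc4fa_al.AlgebraicAlgebras
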