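import Mathlib
import Pool.Agent.Lib.MP_5dc4fa_al.DV.Final

/-!
A unital ring with (P) which has a separated exhaustive filtration whose associated graded ring is
reduced, the part of positive degree having zero annihilator, is commutative.
-/

namespace Pool.Agent.Results.MP_5dc4fa_al.FilteredReduced

open Pool.Agent.Lib.MP_5dc4fa_al

theorem result (R : Type*) [Ring R]
    (hP : ∀ x y : R, ∃ n : ℕ, 2 ≤ n ∧ (x * y) ^ n = x ^ n * y ^ n)
    (F : ℤ → AddSubgroup R)
    (hanti : ∀ m n : ℤ, m ≤ n → F n ≤ F m)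
    (hmul : ∀ (m n : ℤ) (x y : R), x ∈ F m → y ∈ F n → x * y ∈ F (m + n))
    (hone : (1 : R) ∈ F 0)
    (hsep : ∀ x : R, (∀ n : ℤ, x ∈ F n) → x = 0)
    (hexh : ∀ x : R, ∃ n : ℤ, x ∈ F n)
    (hred : ∀ (m : ℤ) (x : R), x ∈ F m → x * x ∈ F (2 * m + 1) → x ∈ F (m + 1))
    (hpos : ∀ (m : ℤ) (x : R), x ∈ F m → x ∉ F (m + 1) →
      ∃ (d : ℤ) (z : R), 1 ≤ d ∧ z ∈ F d ∧ z * x ∉ F (d + m + 1)) :
    ∀ x y : R, x * y = y * x :=
  DV.comm_of_reduced
    { F := F
      anti := fun {m n} h => hanti m n h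
      mul := fun {m n x y} hx hy => hmul m n x y hx hy
      one := hone
      sep := hsep
      exh := hexh
      red := fun {m x} hx h => hred m x hx h } hP hpos

end Pool.Agent.Results.MP_5dc4fa_al.FilteredReduced
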