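import Mathlib
import Pool.Agent.Lib.MP_5dc4fa_al.Alg.NilIdeal

/-!
In a ring with (P) in which any two elements commute with a third one that is not a zero divisor on
the subring they generate (for instance a ring with 1), the nilpotent elements form an ideal.
-/

namespace Pool.Agent.Results.MP_5dc4fa_al.NilpotentIdeal

open Pool.Agent.Lib.MP_5dc4fa_al

theorem result (R : Type*) [NonUnitalRing R]
    (hP : ∀ x y : R, ∃ n : ℕ, 1 ≤ n ∧
      (fun z : R => z * (x * y))^[n] (x * y) =
        (fun z : R => z * x)^[n] x * (fun z : R => z * y)^[n] y)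
    (hc : ∀ x y : R, ∃ c : R, c * x = x * c ∧ c * y = y * c ∧
      ∀ r ∈ NonUnitalSubring.closure ({x, y, c} : Set R), c * r = 0 → r = 0) :
    ∃ N : TwoSidedIdeal R, ∀ x, x ∈ N ↔ ∃ m : ℕ, (fun z : R => z * x)^[m] x = 0 :=
  Alg.nilideal_main' hP hc

end Pool.Agent.Results.MP_5dc4fa_al.NilpotentIdeal
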