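import Mathlib
import Pool.Agent.Lib.MP_5dc4fa_al.Uncountable

/-!
Every algebra over an uncountable field which satisfies (P) and has no nonzero nil two-sided ideal
is commutative.
-/

namespace Pool.Agent.Results.MP_5dc4fa_al.UncountableField

open Pool.Agent.Lib.MP_5dc4fa_al

theorem result (k : Type*) [Field k] [Uncountable k] (R : Type*) [NonUnitalRing R] [Module k R]
    [IsScalarTower k R R] [SMulCommClass k R R]
    (hnil : ∀ I : TwoSidedIdeal R,
      (∀ x ∈ I, ∃ m : ℕ, (fun z : R => z * x)^[m] x = 0) → ∀ x ∈ I, x = 0)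
    (hP : ∀ x y : R, ∃ n : ℕ, 1 ≤ n ∧
      (fun z : R => z * (x * y))^[n] (x * y) =
        (fun z : R => z * x)^[n] x * (fun z : R => z * y)^[n] y) :
    ∀ x y : R, x * y = y * x := by
  obtain ⟨U, _, _, ι, π, hι, hπ⟩ := exists_unital_alg k R
  let I : TwoSidedIdeal R := TwoSidedIdeal.mk' {z : R | InRad k ι z} InRad.zero
    (fun hx hy => InRad.add hx hy) (fun hx => InRad.neg hx) (fun hy => InRad.mul_left hy)
    (fun hx => InRad.mul_right hx)
  have hI : ∀ z : R, z ∈ I ↔ InRad k ι z := fun z => by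
    rw [TwoSidedIdeal.mem_mk']
    rfl
  intro x y
  have h0 := hnil I (fun z hz => InRad.nil hι ((hI z).1 hz)) (x * y - y * x)
    ((hI _).2 (InRad.commutator hπ hP x y))
  exact sub_eq_zero.1 h0

end Pool.Agent.Results.MP_5dc4fa_al.UncountableField
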